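import Pool.Agent.X296.Koc.Main

/-!
# Torsion polynomials which are good for all extensions of the ground field
-/

set_option autoImplicit false
set_option linter.unusedVariables false
set_option linter.unusedSectionVars false

open Polynomial

namespace Pool.Agent.X296.Koc

open Pool.Agent.Y720.MZ

set_option maxHeartbeats 800000 in
/-- **universal torsion polynomials for all the twists over all extensions** -/
theorem univ_tor_ext {K : Type} [Field K] [NumberField K] {f : K[X]} (hs : f.Separable)
    (h3 : 3 ≤ f.natDegree) (h4 : f.natDegree ≤ 4) :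
    ∃ N : ℕ → K[X], (∀ k, N k ≠ 0) ∧
      (∀ (L : Type) [Field L] [NumberField L] (φ : K →+* L), ∃ T : Set L, T.Finite ∧
        ∀ t ∉ T, ∀ k, ((N k).map φ).eval t ≠ 0) ∧
      ∀ (F : Type) [Field F] [CharZero F] (φ : K →+* F) (t w c : F), w ≠ 0 →
        w ^ 2 = c * (f.map φ).eval t → (∀ k, ((N k).map φ).eval t ≠ 0) →
        IOt (w, fun j => c * tq (f.map φ) t j) := by
  choose N hN1 hN2 using fun m => Pool.Agent.X292.CY.exists_tor (up f) (fun _ => 1) m
  -- conversion
  have hconv : ∀ m : ℕ, ∃ P : K[X], ∀ (F : Type) [Field F] (φ : K →+* F) (t : F),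
      (P.map φ).eval t = MvPolynomial.eval (fun _ => t) (MvPolynomial.map φ (N m)) := by
    intro m
    refine ⟨MvPolynomial.aeval (fun _ => X) (N m), fun F _ φ t => ?_⟩
    generalize N m = G
    induction G using MvPolynomial.induction_on with
    | C a => simp
    | add p q hp hq => rw [map_add, Polynomial.map_add, eval_add, hp, hq, map_add, map_add]
    | mul_X p i hp =>
      rw [map_mul, Polynomial.map_mul, eval_mul, hp, map_mul, map_mul]
      simp
  choose P hP using hconv
  have hth : ∀ (F : Type) [Field F] [CharZero F] (g : F[X]) (hg : g.natDegree ≤ 4) (t w : F),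
      th (up g) (fun _ => 1) (fun _ => t) w = (w, tq g t) := by
    intro F _ _ g hg t w
    unfold th
    congr 1
    funext j
    unfold cq
    rw [up_rst, C_1, one_mul]
    have := coeff_comp hg 1 t j
    rw [C_1, one_mul, one_mul] at this
    exact this
  have hmt : ∀ (F : Type) [Field F] [CharZero F] (φ : K →+* F) (t w : F),
      th (MvPolynomial.map φ (up f)) (fun a => φ ((fun _ : Unit => (1 : K)) a)) (fun _ => t) w =
      (w, tq (f.map φ) t) := by
    intro F _ _ φ t w
    rw [up_map]
    simp only [map_one]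
    exact hth F (f.map φ) (by rw [natDegree_map]; exact h4) t w
  have hon : ∀ (F : Type) [Field F] [CharZero F] (φ : K →+* F) (t w : F),
      onX (MvPolynomial.map φ (up f)) (fun _ => t) w ↔ w ^ 2 = (f.map φ).eval t := by
    intro F _ _ φ t w
    unfold onX
    rw [up_map, up_eval]
  -- the nonvanishing
  have hnz : ∀ (L : Type) [Field L] [NumberField L] (φ : K →+* L), ∃ T : Set L, T.Finite ∧
      ∀ t ∉ T, ∀ k, ((P k).map φ).eval t ≠ 0 := by
    intro L _ _ φ
    obtain ⟨T, hT, hTf⟩ := twist_iot (f := f.map φ) hs.map (by rw [natDegree_map]; exact h3)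
      (by rw [natDegree_map]; exact h4)
    refine ⟨T, hT, fun t ht k => ?_⟩
    obtain ⟨hft, hio⟩ := hTf t ht
    have h1 := hio ((f.map φ).eval t) ((f.map φ).eval t) hft (by ring)
    obtain ⟨l, hl0, hl, h3'⟩ := nz_aux (algebraMap L (AlgebraicClosure L)) hft h1
    have h5 := hN2 k (AlgebraicClosure L) ((algebraMap L (AlgebraicClosure L)).comp φ)
      (fun _ => algebraMap L (AlgebraicClosure L) t) l
      ((hon (AlgebraicClosure L) ((algebraMap L (AlgebraicClosure L)).comp φ) _ _).2 (by
        rw [hl, ← Polynomial.map_map, eval_map_apply])) hl0 (by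
        rw [hmt, ← Polynomial.map_map]; exact h3')
    rw [← hP, ← Polynomial.map_map, eval_map_apply] at h5
    intro h6
    apply h5
    rw [h6, map_zero]
  refine ⟨P, fun k h0 => ?_, hnz, ?_⟩
  · obtain ⟨T, hT, hTk⟩ := hnz K (RingHom.id K)
    obtain ⟨t, ht⟩ := hT.infinite_compl.nonempty
    apply hTk t ht k
    rw [h0, Polynomial.map_zero, eval_zero]
  · intro F _ _ φ t w c hw hwc hk
    refine tw_aux (algebraMap F (AlgebraicClosure F)) hw hwc fun l hl0 hl => ?_
    have hd4 : ((f.map φ).map (algebraMap F (AlgebraicClosure F))).natDegree ≤ 4 := by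
      rw [natDegree_map, natDegree_map]; exact h4
    have hd3 : 3 ≤ ((f.map φ).map (algebraMap F (AlgebraicClosure F))).natDegree := by
      rw [natDegree_map, natDegree_map]; exact h3
    refine ⟨?_, ?_⟩
    · have h1 := dsc_th hd4 (c := 1) (t := algebraMap F (AlgebraicClosure F) t) (w := l)
        (by rw [one_mul]; exact hl)
      simp only [one_mul, one_pow] at h1
      rw [h1]
      exact dc_coeff_ne (hs.map.map) hd3 hd4
    · intro h n hn
      obtain ⟨m, rfl⟩ := Nat.exists_eq_succ_of_ne_zero hn
      have h1 := @hN1 m (AlgebraicClosure F) _ _ (Classical.decEq _)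
        ((algebraMap F (AlgebraicClosure F)).comp φ)
        (fun _ => algebraMap F (AlgebraicClosure F) t) l
        ((hon (AlgebraicClosure F) ((algebraMap F (AlgebraicClosure F)).comp φ) _ _).2 (by
          rw [← Polynomial.map_map]; exact hl)) hl0 (by
          rw [← hP, ← Polynomial.map_map, eval_map_apply]
          exact (_root_.map_ne_zero (algebraMap F (AlgebraicClosure F))).2 (hk m))
      rw [hmt, ← Polynomial.map_map] at h1
      exact h1 h

/-- the universal torsion polynomials -/
theorem exists_N_ext {K : Type} [Field K] [NumberField K] {n : ℕ} {f : Fin n → K[X]}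
    (hs : ∀ i, (f i).Separable) (hd : ∀ i, 3 ≤ (f i).natDegree ∧ (f i).natDegree ≤ 4) :
    ∃ N : Fin n → ℕ → K[X], (∀ i k, N i k ≠ 0) ∧
      (∀ (L : Type) [Field L] [NumberField L] (φ : K →+* L), ∃ T : Fin n → Set L,
        (∀ i, (T i).Finite) ∧ ∀ i k, ∀ t ∉ T i, ((N i k).map φ).eval t ≠ 0) ∧
      ∀ (F : Type) [Field F] [CharZero F] (φ : K →+* F) (i : Fin n) (t w c : F), w ≠ 0 →
        w ^ 2 = c * ((f i).map φ).eval t → (∀ k, ((N i k).map φ).eval t ≠ 0) →
        IOt (w, fun j => c * tq ((f i).map φ) t j) := by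
  choose N h1 h2 h3 using fun i => univ_tor_ext (hs i) (hd i).1 (hd i).2
  refine ⟨N, h1, fun L _ _ φ => ?_, fun F _ _ φ i => h3 i F φ⟩
  choose T hT hTf using fun i => h2 i L φ
  exact ⟨T, hT, fun i k t ht => hTf i t ht k⟩

section nk

variable {K : Type*} [Field K] [CharZero K] {α : Type*} [Fintype α] [DecidableEq α]

lemma NK_map {S : Type*} [Field S] [CharZero S] (φ : K →+* S) (f : MvPolynomial α K) :
    MvPolynomial.map φ (NK f) = NK (MvPolynomial.map φ f) := by
  have hs : ∀ i : α, (fun a => φ ((Pi.single i 1 : α → K) a)) = Pi.single i 1 := by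
    intro i
    funext a
    by_cases h : a = i
    · subst h; simp
    · rw [Pi.single_eq_of_ne h, Pi.single_eq_of_ne h, map_zero]
  have hd : ∀ i : α, (MvPolynomial.map φ f).degreeOf i = f.degreeOf i := fun i => by
    rw [MvPolynomial.degreeOf_eq_sup, MvPolynomial.degreeOf_eq_sup,
      MvPolynomial.support_map_of_injective f φ.injective]
  simp only [NK, map_mul, map_prod, TqP_map, gk_map, hs, hd]
  congr 1
  refine Finset.prod_congr rfl fun i _ => Finset.prod_congr rfl fun j _ => ?_
  unfold Wf
  split_ifs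
  · rw [map_one]
  · rw [map_sub, map_mul, map_mul, ← MvPolynomial.pderiv_map, ← MvPolynomial.pderiv_map,
      ← MvPolynomial.pderiv_map]

end nk

end Pool.Agent.X296.Koc
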