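import Pool.Agent.X296.Koc.Poly
import Pool.Agent.Y720.WL.Cy2

/-!
# The closure of the rational points of `w² = A f₁(z₁) ⋯ f_n(z_n)`
-/

set_option autoImplicit false
set_option linter.unusedVariables false
set_option linter.unusedSectionVars false

open Polynomial

namespace Pool.Agent.X296.Koc

open Pool.Agent.Y720.MZ

section poly

variable {F : Type*} [Field F] {n : ℕ}

/-- the polynomial `A f₁(z₁) ⋯ f_n(z_n)` -/
noncomputable def FP (A : F) (f : Fin n → F[X]) : MvPolynomial (Fin n) F :=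
  MvPolynomial.C A * ∏ i, aeval (MvPolynomial.X i : MvPolynomial (Fin n) F) (f i)

/-- the constant in the direction `i` -/
def CK (A : F) (f : Fin n → F[X]) (z : Fin n → F) (i : Fin n) : F :=
  A * ∏ j ∈ Finset.univ.erase i, (f j).eval (z j)

lemma FP_eval (A : F) (f : Fin n → F[X]) (z : Fin n → F) :
    MvPolynomial.eval z (FP A f) = A * ∏ i, (f i).eval (z i) := by
  rw [FP, map_mul, MvPolynomial.eval_C, map_prod]
  congr 1
  refine Finset.prod_congr rfl fun i _ => ?_
  have h1 : MvPolynomial.aeval z (aeval (MvPolynomial.X i : MvPolynomial (Fin n) F) (f i)) =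
      aeval (MvPolynomial.aeval z (MvPolynomial.X i : MvPolynomial (Fin n) F)) (f i) :=
    (aeval_algHom_apply (MvPolynomial.aeval z) _ _).symm
  rw [MvPolynomial.aeval_X, MvPolynomial.aeval_eq_eval, coe_aeval_eq_eval] at h1
  exact h1

lemma FP_CK (A : F) (f : Fin n → F[X]) (z : Fin n → F) (i : Fin n) :
    A * ∏ j, (f j).eval (z j) = CK A f z i * (f i).eval (z i) := by
  rw [CK, ← Finset.mul_prod_erase _ _ (Finset.mem_univ i)]
  ring

lemma FP_map {M : Type*} [Field M] (φ : F →+* M) (A : F) (f : Fin n → F[X]) :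
    MvPolynomial.map φ (FP A f) = FP (φ A) fun i => (f i).map φ := by
  rw [FP, FP, map_mul, MvPolynomial.map_C, map_prod]
  congr 1
  refine Finset.prod_congr rfl fun i _ => ?_
  rw [aeval_def, aeval_def, eval₂_map]
  generalize f i = p
  induction p using Polynomial.induction_on' with
  | add p q hp hq => rw [eval₂_add, map_add, hp, hq, eval₂_add]
  | monomial n a =>
    rw [eval₂_monomial, eval₂_monomial, map_mul, map_pow, MvPolynomial.map_X]
    simp [MvPolynomial.algebraMap_eq]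

lemma FP_rst [CharZero F] (A : F) (f : Fin n → F[X]) (z : Fin n → F) (i : Fin n) :
    rst (FP A f) z (Pi.single i 1) = C (CK A f z i) * (f i).comp (C (z i) + X) := by
  have h1 : ∀ j, MvPolynomial.aeval (fun k : Fin n => C (z k) +
      C ((Pi.single i 1 : Fin n → F) k) * X) (aeval (MvPolynomial.X j :
        MvPolynomial (Fin n) F) (f j)) =
      (f j).comp (C (z j) + C ((Pi.single i 1 : Fin n → F) j) * X) := by
    intro j
    have h2 : MvPolynomial.aeval (fun k : Fin n => (C (z k) +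
        C ((Pi.single i 1 : Fin n → F) k) * X : F[X])) (aeval (MvPolynomial.X j :
          MvPolynomial (Fin n) F) (f j)) =
        aeval (MvPolynomial.aeval (fun k : Fin n => (C (z k) +
          C ((Pi.single i 1 : Fin n → F) k) * X : F[X])) (MvPolynomial.X j :
            MvPolynomial (Fin n) F)) (f j) :=
      (aeval_algHom_apply (MvPolynomial.aeval fun k : Fin n => (C (z k) +
        C ((Pi.single i 1 : Fin n → F) k) * X : F[X])) _ _).symm
    rw [h2, MvPolynomial.aeval_X, comp, aeval_def]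
    rfl
  rw [rst, FP, map_mul, MvPolynomial.aeval_C, map_prod]
  simp only [h1]
  rw [← Finset.mul_prod_erase _ _ (Finset.mem_univ i), Pi.single_eq_same, C_1, one_mul, CK]
  have h3 : ∏ j ∈ Finset.univ.erase i, (f j).comp (C (z j) +
      C ((Pi.single i 1 : Fin n → F) j) * X) =
      ∏ j ∈ Finset.univ.erase i, C ((f j).eval (z j)) := by
    refine Finset.prod_congr rfl fun j hj => ?_
    rw [Pi.single_eq_of_ne (Finset.ne_of_mem_erase hj), C_0, zero_mul, add_zero, comp_C]
  rw [h3, ← map_prod, C_mul]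
  change C A * _ = _
  ring

lemma FP_th [CharZero F] (A : F) (f : Fin n → F[X]) (hf : ∀ i, (f i).natDegree ≤ 4)
    (z : Fin n → F) (w : F) (i : Fin n) :
    th (FP A f) (Pi.single i 1) z w = (w, fun j => CK A f z i * tq (f i) (z i) j) := by
  unfold th
  congr 1
  funext j
  unfold cq
  rw [FP_rst]
  exact coeff_comp (hf i) _ _ _

lemma FP_deg [CharZero F] (A : F) (f : Fin n → F[X]) (hf : ∀ i, (f i).natDegree ≤ 4)
    (z : Fin n → F) (i : Fin n) : (rst (FP A f) z (Pi.single i 1)).natDegree ≤ 4 := by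
  rw [FP_rst]
  refine natDegree_C_mul_le _ _ |>.trans ?_
  rw [natDegree_comp]
  have h1 : (C (z i) + X : F[X]).natDegree = 1 := by
    rw [add_comm]
    exact natDegree_X_add_C _
  rw [h1, mul_one]
  exact hf i

end poly

section places

variable {K : Type} [Field K] [NumberField K] {n : ℕ} {ι : Type} [Finite ι] {p : ι → ℕ}
  [hp : ∀ i, Fact (p i).Prime]

omit [NumberField K] in
lemma onX_iff {F : Type} [Field F] (φ : K →+* F) (A : K) (f : Fin n → K[X]) (z : Fin n → F)
    (w : F) : onX (MvPolynomial.map φ (FP A f)) z w ↔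
      w ^ 2 = φ A * ∏ i, ((f i).map φ).eval (z i) := by
  unfold onX
  rw [FP_map, FP_eval]

/-- the universal torsion polynomials -/
theorem exists_N {f : Fin n → K[X]} (hs : ∀ i, (f i).Separable)
    (hd : ∀ i, 3 ≤ (f i).natDegree ∧ (f i).natDegree ≤ 4) :
    ∃ (T : Fin n → Set K) (N : Fin n → ℕ → K[X]), (∀ i, (T i).Finite) ∧
      (∀ i, ∀ t ∉ T i, (f i).eval t ≠ 0) ∧ (∀ i k, N i k ≠ 0) ∧
      (∀ i, ∀ t ∉ T i, ∀ k, (N i k).eval t ≠ 0) ∧
      ∀ (F : Type) [Field F] [CharZero F] (φ : K →+* F) (i : Fin n) (t w c : F), w ≠ 0 →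
        w ^ 2 = c * ((f i).map φ).eval t → (∀ k, ((N i k).map φ).eval t ≠ 0) →
        IOt (w, fun j => c * tq ((f i).map φ) t j) := by
  choose T hT hTf using fun i => twist_iot (hs i) (hd i).1 (hd i).2
  choose N h1 h2 h3 using fun i => univ_tor (hs i) (hd i).1 (hd i).2 (hT i) (hTf i)
  exact ⟨T, N, hT, fun i t ht => (hTf i t ht).1, h1, h2, fun F _ _ φ i => h3 i F φ⟩

/-- the condition at one place -/
lemma iot_of {F : Type} [Field F] [CharZero F] (φ : K →+* F) {A : K}
    {f : Fin n → K[X]} (hd : ∀ i, (f i).natDegree ≤ 4) {N : Fin n → ℕ → K[X]}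
    (hN : ∀ (F : Type) [Field F] [CharZero F] (φ : K →+* F) (i : Fin n) (t w c : F), w ≠ 0 →
        w ^ 2 = c * ((f i).map φ).eval t → (∀ k, ((N i k).map φ).eval t ≠ 0) →
        IOt (w, fun j => c * tq ((f i).map φ) t j))
    {x : Fin n → F} {y : F} (hP : onX (MvPolynomial.map φ (FP A f)) x y) (hw : y ≠ 0) (j : Fin n)
    (h : ∀ k, ((N j k).map φ).eval (x j) ≠ 0) :
    IOt (th (MvPolynomial.map φ (FP A f)) (Pi.single j 1) x y) := by
  rw [FP_map, FP_th _ _ (fun i' => by rw [natDegree_map]; exact hd i')]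
  refine hN _ φ j _ _ _ hw ?_ h
  rw [(onX_iff φ A f x y).1 hP]
  exact FP_CK _ _ _ _

/-- the discriminant at one place -/
lemma Tq_ne {F : Type} [Field F] [CharZero F] (φ : K →+* F) {A : K}
    {f : Fin n → K[X]} (hs : ∀ i, (f i).Separable)
    (hd : ∀ i, 3 ≤ (f i).natDegree ∧ (f i).natDegree ≤ 4)
    {x : Fin n → F} {y : F} (hP : onX (MvPolynomial.map φ (FP A f)) x y) (hw : y ≠ 0) (j : Fin n) :
    Tq (MvPolynomial.map φ (FP A f)) (Pi.single j 1) x ≠ 0 := by
  classical
  have h2 := (onX_iff φ A f x y).1 hP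
  rw [FP_CK _ _ _ j] at h2
  have hc : CK (φ A) (fun i => (f i).map φ) x j ≠ 0 := by
    intro h0
    rw [h0, zero_mul] at h2
    exact hw (pow_eq_zero_iff two_ne_zero |>.1 h2)
  rw [← Tq_eq hP, FP_map, FP_th _ _ (fun i' => by rw [natDegree_map]; exact (hd i').2),
    dsc_th (f := (f j).map φ) (by rw [natDegree_map]; exact (hd j).2) h2]
  exact mul_ne_zero (pow_ne_zero 6 hc) (dc_coeff_ne (f := (f j).map φ) ((hs j).map)
    (by rw [natDegree_map]; exact (hd j).1) (by rw [natDegree_map]; exact (hd j).2))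

/-- the closure is open, `p`-adic places -/
theorem int_p [Nonempty ι] (hinj : Function.Injective p) (σ : ∀ i, K →+* ℚ_[p i]) {A : K}
    {f : Fin n → K[X]} (hd : ∀ i, (f i).natDegree ≤ 4) {N : Fin n → ℕ → K[X]}
    (hN : ∀ (F : Type) [Field F] [CharZero F] (φ : K →+* F) (i : Fin n) (t w c : F), w ≠ 0 →
        w ^ 2 = c * ((f i).map φ).eval t → (∀ k, ((N i k).map φ).eval t ≠ 0) →
        IOt (w, fun j => c * tq ((f i).map φ) t j))
    {x₀ : ∀ i, Fin n → ℚ_[p i]} {y₀ : ∀ i, ℚ_[p i]}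
    (hP : ∀ i, onX (MvPolynomial.map (σ i) (FP A f)) (x₀ i) (y₀ i)) (hw : ∀ i, y₀ i ≠ 0)
    (h : ∀ i j k, ((N j k).map (σ i)).eval (x₀ i j) ≠ 0) : IntL σ (FP A f) x₀ y₀ := by
  refine int_of_mvL hP hw fun j => mv_ioL (hw_p hinj σ) (fun z => FP_deg A f hd z j) hw fun i => ?_
  rw [single_mapα]
  exact iot_of (σ i) hd hN (hP i) (hw i) j (h i j)

/-- the closure is open, a real place and `p`-adic places -/
theorem int_r [Nonempty ι] (hinj : Function.Injective p) (σ : ∀ i, K →+* ℚ_[p i]) (τ : K →+* ℝ)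
    {A : K} {f : Fin n → K[X]} (hs : ∀ i, (f i).Separable)
    (hd : ∀ i, 3 ≤ (f i).natDegree ∧ (f i).natDegree ≤ 4) {N : Fin n → ℕ → K[X]}
    (hN : ∀ (F : Type) [Field F] [CharZero F] (φ : K →+* F) (i : Fin n) (t w c : F), w ≠ 0 →
        w ^ 2 = c * ((f i).map φ).eval t → (∀ k, ((N i k).map φ).eval t ≠ 0) →
        IOt (w, fun j => c * tq ((f i).map φ) t j))
    {x₀ : ∀ v, Fin n → Lv p v} {y₀ : ∀ v, Lv p v}
    (hP : ∀ v, onX (MvPolynomial.map (sv σ τ v) (FP A f)) (x₀ v) (y₀ v)) (hw : ∀ v, y₀ v ≠ 0)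
    (h : ∀ i j k, ((N j k).map (sv σ τ (some i))).eval (x₀ (some i) j) ≠ 0) :
    IntL (sv σ τ) (FP A f) x₀ y₀ := by
  refine int_of_mvL hP hw fun j => mv_ior hinj (fun z => FP_deg A f (fun i => (hd i).2) z j) hP hw
    ?_ fun i => ?_
  · rw [single_mapα]
    exact Tq_ne (sv σ τ none) hs hd (hP none) (hw none) j
  · rw [single_mapα]
    exact iot_of (sv σ τ (some i)) (fun i => (hd i).2) hN (hP (some i)) (hw (some i)) j (h i j)

end places

end Pool.Agent.X296.Koc
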