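import Pool.Agent.X296.Koc.Scale
import Pool.Agent.Y720.MZ.Tw

/-!
# The torsion points on the twists of a curve of genus one
-/

set_option autoImplicit false
set_option linter.unusedVariables false
set_option linter.unusedSectionVars false

open WeierstrassCurve Polynomial

namespace Pool.Agent.X296.Koc

open Pool.Agent.Y720.MZ

section alg

variable {F : Type*} [Field F]

lemma qpol_of {q : F[X]} (h4 : q.natDegree ≤ 4) :
    q = qpol (q.coeff 0) (q.coeff 1) (q.coeff 2) (q.coeff 3) (q.coeff 4) := by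
  conv_lhs => rw [q.as_sum_range_C_mul_X_pow' (show q.natDegree < 5 by omega)]
  simp only [Finset.sum_range_succ, Finset.sum_range_zero, qpol]
  ring

lemma coeffs_qpol (a b c d e : F) : (qpol a b c d e).coeff 0 = a ∧ (qpol a b c d e).coeff 1 = b ∧
    (qpol a b c d e).coeff 2 = c ∧ (qpol a b c d e).coeff 3 = d ∧ (qpol a b c d e).coeff 4 = e := by
  simp [qpol, coeff_X, coeff_C]

lemma qpol_comp (q₀ q₁ q₂ q₃ q₄ t₀ C' : F) :
    C C' * (qpol q₀ q₁ q₂ q₃ q₄).comp (C t₀ + X) =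
      qpol (C' * (q₀ + q₁ * t₀ + q₂ * t₀ ^ 2 + q₃ * t₀ ^ 3 + q₄ * t₀ ^ 4))
        (C' * (q₁ + 2 * q₂ * t₀ + 3 * q₃ * t₀ ^ 2 + 4 * q₄ * t₀ ^ 3))
        (C' * (q₂ + 3 * q₃ * t₀ + 6 * q₄ * t₀ ^ 2)) (C' * (q₃ + 4 * q₄ * t₀)) (C' * q₄) := by
  simp only [qpol, add_comp, mul_comp, C_comp, X_comp, pow_comp, map_mul, map_add, map_pow,
    map_ofNat]
  ring

/-- the higher coefficients of `f(t + X)` -/
def tq (f : F[X]) (t : F) : Fin 4 → F :=
  ![f.coeff 1 + 2 * f.coeff 2 * t + 3 * f.coeff 3 * t ^ 2 + 4 * f.coeff 4 * t ^ 3,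
    f.coeff 2 + 3 * f.coeff 3 * t + 6 * f.coeff 4 * t ^ 2, f.coeff 3 + 4 * f.coeff 4 * t,
    f.coeff 4]

lemma coeff_comp {f : F[X]} (h4 : f.natDegree ≤ 4) (c t : F) (j : Fin 4) :
    (C c * f.comp (C t + X)).coeff ((j : ℕ) + 1) = c * tq f t j := by
  conv_lhs => rw [qpol_of h4, qpol_comp]
  obtain ⟨-, e1, e2, e3, e4⟩ := coeffs_qpol
    (c * (f.coeff 0 + f.coeff 1 * t + f.coeff 2 * t ^ 2 + f.coeff 3 * t ^ 3 + f.coeff 4 * t ^ 4))
    (c * (f.coeff 1 + 2 * f.coeff 2 * t + 3 * f.coeff 3 * t ^ 2 + 4 * f.coeff 4 * t ^ 3))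
    (c * (f.coeff 2 + 3 * f.coeff 3 * t + 6 * f.coeff 4 * t ^ 2))
    (c * (f.coeff 3 + 4 * f.coeff 4 * t)) (c * f.coeff 4)
  fin_cases j
  · exact e1
  · exact e2
  · exact e3
  · exact e4

lemma eval_of {f : F[X]} (h4 : f.natDegree ≤ 4) (t : F) : f.eval t =
    f.coeff 0 + f.coeff 1 * t + f.coeff 2 * t ^ 2 + f.coeff 3 * t ^ 3 + f.coeff 4 * t ^ 4 := by
  conv_lhs => rw [qpol_of h4]
  rw [eval_qpol]

/-- the discriminant of the shifted polynomial -/
lemma dc_tq {f : F[X]} (h4 : f.natDegree ≤ 4) (c t : F) :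
    dc (c * f.eval t) (c * tq f t 0) (c * tq f t 1) (c * tq f t 2) (c * tq f t 3) =
      c ^ 6 * dc (f.coeff 0) (f.coeff 1) (f.coeff 2) (f.coeff 3) (f.coeff 4) := by
  rw [dc_smul, ← dc_shift t (f.coeff 0), eval_of h4]
  congr 1
  simp only [tq, Matrix.cons_val]
  congr 1 <;> ring

lemma dc_coeff_ne [CharZero F] {f : F[X]} (hs : f.Separable) (h3 : 3 ≤ f.natDegree)
    (h4 : f.natDegree ≤ 4) :
    dc (f.coeff 0) (f.coeff 1) (f.coeff 2) (f.coeff 3) (f.coeff 4) ≠ 0 := by
  apply dc_ne_zero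
  · rw [← qpol_of h4]; exact hs
  · rw [← qpol_of h4]; exact h3

lemma tq_map {M : Type*} [Field M] (φ : F →+* M) (f : F[X]) (t : F) (j : Fin 4) :
    tq (f.map φ) (φ t) j = φ (tq f t j) := by
  fin_cases j <;> simp [tq, map_ofNat]

/-- the discriminant at a point -/
lemma dsc_th {f : F[X]} (h4 : f.natDegree ≤ 4) {c t w : F} (hw : w ^ 2 = c * f.eval t) :
    dsc (tA (w, fun j => c * tq f t j)) (tB (w, fun j => c * tq f t j))
      (tC (w, fun j => c * tq f t j)) =
      c ^ 6 * dc (f.coeff 0) (f.coeff 1) (f.coeff 2) (f.coeff 3) (f.coeff 4) := by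
  rw [← dc_tq h4, dc, ← hw]
  rfl

end alg

section nf

variable {K : Type} [Field K] [NumberField K]

/-- Only finitely many `t` are the abscissae of points of finite order (in the sense of
differences) of quadratic twists. -/
theorem twist_iot {f : K[X]} (hs : f.Separable) (h3 : 3 ≤ f.natDegree) (h4 : f.natDegree ≤ 4) :
    ∃ T : Set K, T.Finite ∧ ∀ t₀ ∉ T, f.eval t₀ ≠ 0 ∧ ∀ C' w : K, w ≠ 0 →
      w ^ 2 = C' * f.eval t₀ → IOt (w, fun j => C' * tq f t₀ j) := by
  letI : DecidableEq K := Classical.decEq K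
  have hdc := dc_coeff_ne hs h3 h4
  set q₀ := f.coeff 0 with hq₀
  set q₁ := f.coeff 1 with hq₁
  set q₂ := f.coeff 2 with hq₂
  set q₃ := f.coeff 3 with hq₃
  set q₄ := f.coeff 4 with hq₄
  obtain ⟨Ξ, hΞ, htors⟩ := torsion_finite (K := K) (a := q₂) (b := q₁ * q₃ - 4 * q₀ * q₄)
    (c := q₁ ^ 2 * q₄ + q₀ * q₃ ^ 2 - 4 * q₀ * q₂ * q₄) hdc
  have hPe : ∀ t, f.eval t = q₀ + q₁ * t + q₂ * t ^ 2 + q₃ * t ^ 3 + q₄ * t ^ 4 := eval_of h4
  have hf0 : f ≠ 0 := by
    intro h
    rw [h, natDegree_zero] at h3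
    omega
  have hP1 : ∀ t, (derivative f).eval t = q₁ + 2 * q₂ * t + 3 * q₃ * t ^ 2 + 4 * q₄ * t ^ 3 := by
    intro t
    conv_lhs => rw [qpol_of h4]
    simp only [qpol, derivative_add, derivative_C_mul, derivative_C, derivative_X,
      derivative_X_pow, eval_add, eval_mul, eval_C, eval_pow, eval_X, eval_one, eval_zero]
    push_cast
    ring
  set M : K → K[X] := fun ξ => C (q₂ + ξ) + C (2 * q₃) * X + C (4 * q₄) * X ^ 2 with hM
  have hMe : ∀ ξ t, (M ξ).eval t = (q₂ + 3 * q₃ * t + 6 * q₄ * t ^ 2) -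
      (q₃ * t + 2 * q₄ * t ^ 2) + ξ := by
    intro ξ t
    simp only [hM, eval_add, eval_mul, eval_C, eval_X, eval_pow]
    ring
  have hfin : ∀ ξ : K, {t : K | (derivative f).eval t ^ 2 = 4 * f.eval t * (M ξ).eval t}.Finite := by
    intro ξ
    by_contra hinf
    have e : derivative f ^ 2 = C 4 * f * M ξ := by
      apply eq_of_infinite_eval_eq
      refine Set.Infinite.mono ?_ hinf
      intro t ht
      change (derivative f ^ 2).eval t = (C 4 * f * M ξ).eval t
      rw [eval_pow, eval_mul, eval_mul, eval_C]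
      exact ht
    have h1 : f ∣ derivative f ^ 2 := ⟨C 4 * M ξ, by rw [e]; ring⟩
    have h2 : IsCoprime f (derivative f) := hs
    have h3' : IsCoprime f (derivative f ^ 2) := h2.pow_right
    have h4' : IsUnit f := h3'.isUnit_of_dvd' dvd_rfl h1
    have h5 := natDegree_eq_zero_of_isUnit h4'
    omega
  refine ⟨{t | f.eval t = 0} ∪ ⋃ ξ ∈ Ξ, {t : K | (derivative f).eval t ^ 2 =
    4 * f.eval t * (M ξ).eval t}, ?_, ?_⟩
  · refine Set.Finite.union ?_ (hΞ.biUnion fun ξ _ => hfin ξ)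
    exact (f.roots.toFinset.finite_toSet).subset fun t ht => by
      rw [Finset.mem_coe, Multiset.mem_toFinset, mem_roots hf0]
      exact ht
  intro t₀ ht₀
  rw [Set.mem_union, not_or, Set.mem_iUnion₂] at ht₀
  obtain ⟨ht1, ht2⟩ := ht₀
  have hq0 : f.eval t₀ ≠ 0 := ht1
  refine ⟨hq0, ?_⟩
  intro C' w hw hwC
  have hC' : C' ≠ 0 := by
    rintro rfl
    rw [zero_mul] at hwC
    exact hw (pow_eq_zero_iff two_ne_zero |>.1 hwC)
  refine ⟨?_, ?_⟩
  · rw [dsc_th h4 hwC]
    exact mul_ne_zero (pow_ne_zero 6 hC') hdc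
  intro h n hn
  have hPt := hPe t₀
  set a0 := q₀ + q₁ * t₀ + q₂ * t₀ ^ 2 + q₃ * t₀ ^ 3 + q₄ * t₀ ^ 4 with ha0
  refine htors C' hC' (q₃ * t₀ + 2 * q₄ * t₀ ^ 2) _ _ _ ?_ ?_ ?_ _ _ h ?_ n hn
  · simp only [tA, tq, Matrix.cons_val]
    ring
  · simp only [tB, rb, tq, Matrix.cons_val]
    rw [hwC, hPt, ← shift_b, ha0]
    ring
  · simp only [tC, rc, tq, Matrix.cons_val]
    rw [hwC, hPt, ← shift_c, ha0]
    ring
  · intro hmem
    apply ht2
    refine ⟨_, hmem, ?_⟩
    change (derivative f).eval t₀ ^ 2 = 4 * f.eval t₀ * (M _).eval t₀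
    rw [hMe, hP1]
    simp only [tX, xs, tq, Matrix.cons_val]
    rw [hwC]
    field_simp
    ring

end nf

section univ

/-- one-variable polynomials as polynomials over `Unit` -/
noncomputable def up {K : Type*} [Field K] (f : K[X]) : MvPolynomial Unit K :=
  aeval (MvPolynomial.X () : MvPolynomial Unit K) f

lemma up_map {K F : Type*} [Field K] [Field F] (φ : K →+* F) (f : K[X]) :
    MvPolynomial.map φ (up f) = up (f.map φ) := by
  unfold up
  rw [aeval_def, aeval_def, eval₂_map]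
  induction f using Polynomial.induction_on' with
  | add p q hp hq => rw [eval₂_add, map_add, hp, hq, eval₂_add]
  | monomial n a =>
    rw [eval₂_monomial, eval₂_monomial, map_mul, map_pow, MvPolynomial.map_X]
    simp [MvPolynomial.algebraMap_eq]

lemma up_eval {K : Type*} [Field K] (f : K[X]) (z : Unit → K) :
    MvPolynomial.eval z (up f) = f.eval (z ()) := by
  unfold up
  have h1 : MvPolynomial.aeval z (aeval (MvPolynomial.X () : MvPolynomial Unit K) f) =
      aeval (MvPolynomial.aeval z (MvPolynomial.X () : MvPolynomial Unit K)) f :=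
    (aeval_algHom_apply (MvPolynomial.aeval z) _ _).symm
  rw [MvPolynomial.aeval_X, MvPolynomial.aeval_eq_eval, coe_aeval_eq_eval] at h1
  exact h1

lemma up_rst {K : Type*} [Field K] [CharZero K] (f : K[X]) (z v : Unit → K) :
    rst (up f) z v = f.comp (C (z ()) + C (v ()) * X) := by
  unfold rst up
  have h1 : MvPolynomial.aeval (fun i : Unit => C (z i) + C (v i) * X)
      (aeval (MvPolynomial.X () : MvPolynomial Unit K) f) =
      aeval (MvPolynomial.aeval (fun i : Unit => (C (z i) + C (v i) * X : K[X]))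
        (MvPolynomial.X () : MvPolynomial Unit K)) f :=
    (aeval_algHom_apply (MvPolynomial.aeval fun i : Unit => (C (z i) + C (v i) * X : K[X])) _ _).symm
  rw [h1, MvPolynomial.aeval_X, comp, aeval_def]
  rfl

section aux

variable {K M : Type} [Field K] [CharZero K] [Field M] [CharZero M] [IsAlgClosed M]

set_option maxHeartbeats 400000 in
lemma nz_aux (ψ : K →+* M) {f : K[X]} {t : K} (hft : f.eval t ≠ 0)
    (h1 : IOt (f.eval t, fun j => f.eval t * tq f t j)) :
    ∃ l : M, l ≠ 0 ∧ l ^ 2 = ψ (f.eval t) ∧ IOt (l, tq (f.map ψ) (ψ t)) := by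
  obtain ⟨l, hl⟩ := IsAlgClosed.exists_pow_nat_eq (ψ (f.eval t)) (n := 2) (by norm_num)
  have hl0 : l ≠ 0 := by
    rintro rfl
    rw [zero_pow two_ne_zero] at hl
    exact hft ((map_eq_zero ψ).1 hl.symm)
  refine ⟨l, hl0, hl, ?_⟩
  have h2 := io_map ψ h1
  have h3 := iot_scale (l := l⁻¹) (inv_ne_zero hl0) ((map_ne_zero ψ).2 hft) h2
  have e1 : l⁻¹ * ψ (f.eval t) = l := by
    rw [← hl, sq, ← mul_assoc, inv_mul_cancel₀ hl0, one_mul]
  have e2 : (fun j => l⁻¹ ^ 2 * ψ (f.eval t * tq f t j)) = tq (f.map ψ) (ψ t) := by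
    funext j
    rw [map_mul, ← hl, tq_map, inv_pow, ← mul_assoc, inv_mul_cancel₀ (pow_ne_zero 2 hl0), one_mul]
  simp only [e1, e2] at h3
  exact h3

set_option maxHeartbeats 400000 in
lemma tw_aux (ψ : K →+* M) {g : K[X]} {t w c : K} (hw : w ≠ 0) (hwc : w ^ 2 = c * g.eval t)
    (H : ∀ l : M, l ≠ 0 → l ^ 2 = (g.map ψ).eval (ψ t) → IOt (l, tq (g.map ψ) (ψ t))) :
    IOt (w, fun j => c * tq g t j) := by
  have hc : c ≠ 0 := by
    rintro rfl
    rw [zero_mul] at hwc
    exact hw (pow_eq_zero_iff two_ne_zero |>.1 hwc)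
  obtain ⟨l, hl⟩ := IsAlgClosed.exists_pow_nat_eq (ψ c) (n := 2) (by norm_num)
  have hl0 : l ≠ 0 := by
    rintro rfl
    rw [zero_pow two_ne_zero] at hl
    exact hc ((map_eq_zero ψ).1 hl.symm)
  have hψw : ψ w ≠ 0 := (map_ne_zero ψ).2 hw
  have hw' : ψ w / l ≠ 0 := div_ne_zero hψw hl0
  have hsq : (ψ w / l) ^ 2 = (g.map ψ).eval (ψ t) := by
    rw [div_pow, ← map_pow, hwc, map_mul, hl, eval_map_apply,
      mul_div_cancel_left₀ _ (by rw [← hl]; exact pow_ne_zero 2 hl0)]
  have h1 := iot_scale hl0 hw' (H _ hw' hsq)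
  have e1 : l * (ψ w / l) = ψ w := mul_div_cancel₀ _ hl0
  have e2 : (fun j => l ^ 2 * tq (g.map ψ) (ψ t) j) = fun j => ψ (c * tq g t j) := by
    funext j
    rw [hl, tq_map, map_mul]
  rw [e1, e2] at h1
  exact io_down ψ (θ := (w, fun j => c * tq g t j)) hw h1

end aux

set_option maxHeartbeats 800000 in
/-- **universal torsion polynomials for all the twists** -/
theorem univ_tor {K : Type} [Field K] [NumberField K] {f : K[X]} (hs : f.Separable)
    (h3 : 3 ≤ f.natDegree) (h4 : f.natDegree ≤ 4) {T : Set K} (hT : T.Finite)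
    (hTf : ∀ t₀ ∉ T, f.eval t₀ ≠ 0 ∧ ∀ C' w : K, w ≠ 0 →
      w ^ 2 = C' * f.eval t₀ → IOt (w, fun j => C' * tq f t₀ j)) :
    ∃ N : ℕ → K[X], (∀ k, N k ≠ 0) ∧ (∀ t ∉ T, ∀ k, (N k).eval t ≠ 0) ∧
      ∀ (F : Type) [Field F] [CharZero F] (φ : K →+* F) (t w c : F), w ≠ 0 →
        w ^ 2 = c * (f.map φ).eval t → (∀ k, ((N k).map φ).eval t ≠ 0) →
        IOt (w, fun j => c * tq (f.map φ) t j) := by
  choose N hN1 hN2 using fun m => Pool.Agent.X292.CY.exists_tor (up f) (fun _ => 1) m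
  -- conversion
  have hconv : ∀ m : ℕ, ∃ P : K[X], ∀ (F : Type) [Field F] (φ : K →+* F) (t : F),
      (P.map φ).eval t = MvPolynomial.eval (fun _ => t) (MvPolynomial.map φ (N m)) := by
    intro m
    refine ⟨MvPolynomial.aeval (fun _ => X) (N m), fun F _ φ t => ?_⟩
    generalize N m = G
    induction G using MvPolynomial.induction_on with
    | C a => simp
    | add p q hp hq => rw [map_add, Polynomial.map_add, eval_add, hp, hq, map_add, map_add]
    | mul_X p i hp =>
      rw [map_mul, Polynomial.map_mul, eval_mul, hp, map_mul, map_mul]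
      simp
  choose P hP using hconv
  have hth : ∀ (F : Type) [Field F] [CharZero F] (g : F[X]) (hg : g.natDegree ≤ 4) (t w : F),
      th (up g) (fun _ => 1) (fun _ => t) w = (w, tq g t) := by
    intro F _ _ g hg t w
    unfold th
    congr 1
    funext j
    unfold cq
    rw [up_rst, C_1, one_mul]
    have := coeff_comp hg 1 t j
    rw [C_1, one_mul, one_mul] at this
    exact this
  have hmt : ∀ (F : Type) [Field F] [CharZero F] (φ : K →+* F) (t w : F),
      th (MvPolynomial.map φ (up f)) (fun a => φ ((fun _ : Unit => (1 : K)) a)) (fun _ => t) w =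
      (w, tq (f.map φ) t) := by
    intro F _ _ φ t w
    rw [up_map]
    simp only [map_one]
    exact hth F (f.map φ) (by rw [natDegree_map]; exact h4) t w
  have hon : ∀ (F : Type) [Field F] [CharZero F] (φ : K →+* F) (t w : F),
      onX (MvPolynomial.map φ (up f)) (fun _ => t) w ↔ w ^ 2 = (f.map φ).eval t := by
    intro F _ _ φ t w
    unfold onX
    rw [up_map, up_eval]
  -- the nonvanishing
  have hnz : ∀ t ∉ T, ∀ k, (P k).eval t ≠ 0 := by
    intro t ht k
    obtain ⟨hft, hio⟩ := hTf t ht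
    have h1 := hio (f.eval t) (f.eval t) hft (by ring)
    obtain ⟨l, hl0, hl, h3'⟩ := nz_aux (algebraMap K (AlgebraicClosure K)) hft h1
    have h5 := hN2 k (AlgebraicClosure K) (algebraMap K (AlgebraicClosure K))
      (fun _ => algebraMap K (AlgebraicClosure K) t) l
      ((hon (AlgebraicClosure K) (algebraMap K (AlgebraicClosure K)) _ _).2 (by
        rw [hl, eval_map_apply])) hl0 (by
        rw [hmt]; exact h3')
    rw [← hP] at h5
    intro h6
    apply h5
    rw [eval_map_apply, h6, map_zero]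
  refine ⟨P, fun k h0 => ?_, hnz, ?_⟩
  · obtain ⟨t, ht⟩ := hT.infinite_compl.nonempty
    apply hnz t ht k
    rw [h0, eval_zero]
  · intro F _ _ φ t w c hw hwc hk
    refine tw_aux (algebraMap F (AlgebraicClosure F)) hw hwc fun l hl0 hl => ?_
    have hd4 : ((f.map φ).map (algebraMap F (AlgebraicClosure F))).natDegree ≤ 4 := by
      rw [natDegree_map, natDegree_map]; exact h4
    have hd3 : 3 ≤ ((f.map φ).map (algebraMap F (AlgebraicClosure F))).natDegree := by
      rw [natDegree_map, natDegree_map]; exact h3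
    refine ⟨?_, ?_⟩
    · have h1 := dsc_th hd4 (c := 1) (t := algebraMap F (AlgebraicClosure F) t) (w := l)
        (by rw [one_mul]; exact hl)
      simp only [one_mul, one_pow] at h1
      rw [h1]
      exact dc_coeff_ne (hs.map.map) hd3 hd4
    · intro h n hn
      obtain ⟨m, rfl⟩ := Nat.exists_eq_succ_of_ne_zero hn
      have h1 := @hN1 m (AlgebraicClosure F) _ _ (Classical.decEq _)
        ((algebraMap F (AlgebraicClosure F)).comp φ)
        (fun _ => algebraMap F (AlgebraicClosure F) t) l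
        ((hon (AlgebraicClosure F) ((algebraMap F (AlgebraicClosure F)).comp φ) _ _).2 (by
          rw [← Polynomial.map_map]; exact hl)) hl0 (by
          rw [← hP, ← Polynomial.map_map, eval_map_apply]
          exact (_root_.map_ne_zero (algebraMap F (AlgebraicClosure F))).2 (hk m))
      rw [hmt, ← Polynomial.map_map] at h1
      exact h1 h

end univ

end Pool.Agent.X296.Koc
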