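import Pool.Agent.X292.CY.Gen

/-!
# Change of scale for points of infinite order
-/

set_option autoImplicit false
set_option linter.unusedVariables false
set_option linter.unusedSectionVars false

open WeierstrassCurve

namespace Pool.Agent.X296.Koc

open Pool.Agent.Y720.MZ

section pts

variable {F : Type} [Field F]

lemma ns_scale {a b c x y l : F} (hl : l ≠ 0) (h : (cv a b c).toAffine.Nonsingular x y) :
    (cv (l ^ 2 * a) (l ^ 4 * b) (l ^ 6 * c)).toAffine.Nonsingular (l ^ 2 * x) (l ^ 3 * y) := by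
  rw [cv_ns] at h ⊢
  refine ⟨by linear_combination l ^ 6 * h.1, ?_⟩
  rcases h.2 with h1 | h1
  · left
    have e : 3 * (l ^ 2 * x) ^ 2 + 2 * (l ^ 2 * a) * (l ^ 2 * x) + l ^ 4 * b =
        l ^ 4 * (3 * x ^ 2 + 2 * a * x + b) := by ring
    rw [e]
    exact mul_ne_zero (pow_ne_zero 4 hl) h1
  · right
    have e : 2 * (l ^ 3 * y) = l ^ 3 * (2 * y) := by ring
    rw [e]
    exact mul_ne_zero (pow_ne_zero 3 hl) h1

/-- the change of scale -/
def sc {a b c l : F} (hl : l ≠ 0) : Pt a b c → Pt (l ^ 2 * a) (l ^ 4 * b) (l ^ 6 * c)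
  | 0 => 0
  | .some x y h => .some (l ^ 2 * x) (l ^ 3 * y) (ns_scale hl h)

lemma sc_zero {a b c l : F} (hl : l ≠ 0) : sc hl (0 : Pt a b c) = 0 := rfl

lemma sc_some {a b c l : F} (hl : l ≠ 0) {x y : F} (h : (cv a b c).toAffine.Nonsingular x y) :
    sc hl (.some x y h : Pt a b c) = .some (l ^ 2 * x) (l ^ 3 * y) (ns_scale hl h) := rfl

lemma pt_ext {a b c x y x' y' : F} {h : (cv a b c).toAffine.Nonsingular x y}
    {h' : (cv a b c).toAffine.Nonsingular x' y'} (hx : x = x') (hy : y = y') :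
    (.some x y h : Pt a b c) = .some x' y' h' := by
  subst hx hy
  rfl

lemma sc_neg {a b c l : F} (hl : l ≠ 0) (P : Pt a b c) : sc hl (-P) = -sc hl P := by
  rcases P with _ | ⟨x, y, h⟩
  · rfl
  · obtain ⟨h1, e1⟩ := neg_mk h
    obtain ⟨h2, e2⟩ := neg_mk (ns_scale hl h)
    rw [e1, sc_some, sc_some, e2]
    exact pt_ext rfl (by ring)

variable [DecidableEq F]

lemma sc_add {a b c l : F} (hl : l ≠ 0) (P Q : Pt a b c) : sc hl (P + Q) = sc hl P + sc hl Q := by
  rcases P with _ | ⟨x, y, h⟩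
  · change sc hl (0 + Q) = 0 + sc hl Q
    rw [zero_add, zero_add]
  rcases Q with _ | ⟨x', y', h'⟩
  · change sc hl (_ + 0) = _ + 0
    rw [add_zero, add_zero]
  by_cases hx : x = x'
  · subst hx
    rcases eq_or_neg h h' with h1 | h1
    · rw [← h1]
      by_cases hy : 2 * y = 0
      · rw [dbl_zero h hy, sc_some, dbl_zero (ns_scale hl h) (by
          have e : 2 * (l ^ 3 * y) = l ^ 3 * (2 * y) := by ring
          rw [e, hy, mul_zero])]
        rfl
      · have hy' : 2 * (l ^ 3 * y) ≠ 0 := by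
          have e : 2 * (l ^ 3 * y) = l ^ 3 * (2 * y) := by ring
          rw [e]
          exact mul_ne_zero (pow_ne_zero 3 hl) hy
        obtain ⟨k1, e1⟩ := dbl_mk h hy (ℓ := (3 * x ^ 2 + 2 * a * x + b) / (2 * y))
          (div_mul_cancel₀ _ hy)
        obtain ⟨k2, e2⟩ := dbl_mk (ns_scale hl h) hy'
          (ℓ := l * ((3 * x ^ 2 + 2 * a * x + b) / (2 * y))) (by
            have := div_mul_cancel₀ (3 * x ^ 2 + 2 * a * x + b) hy
            linear_combination l ^ 4 * this)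
        rw [e1, sc_some, sc_some, e2]
        exact pt_ext (by ring) (by ring)
    · rw [h1, neg_add_cancel, sc_neg, neg_add_cancel]
      rfl
  · obtain ⟨k1, e1⟩ := add_mk h h' hx (ℓ := (y - y') / (x - x'))
      (div_mul_cancel₀ _ (sub_ne_zero.2 hx))
    have hx' : l ^ 2 * x ≠ l ^ 2 * x' := fun h0 => hx (mul_left_cancel₀ (pow_ne_zero 2 hl) h0)
    obtain ⟨k2, e2⟩ := add_mk (ns_scale hl h) (ns_scale hl h') hx' (ℓ := l * ((y - y') / (x - x')))
      (by
        have := div_mul_cancel₀ (y - y') (sub_ne_zero.2 hx)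
        linear_combination l ^ 3 * this)
    rw [e1, sc_some, sc_some, sc_some, e2]
    exact pt_ext (by ring) (by ring)

lemma sc_nsmul {a b c l : F} (hl : l ≠ 0) (n : ℕ) (P : Pt a b c) :
    sc hl (n • P) = n • sc hl P := by
  induction n with
  | zero => rw [zero_smul, zero_smul]; rfl
  | succ n ih => rw [add_smul, add_smul, one_smul, one_smul, sc_add, ih]

lemma io_scale {a b c x y l : F} (hl : l ≠ 0)
    (h0 : (cv a b c).toAffine.Nonsingular x y)
    (H : ∀ h, ∀ n : ℕ, n ≠ 0 → n • (.some x y h : Pt a b c) ≠ 0) :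
    ∀ h, ∀ n : ℕ, n ≠ 0 → n • (.some (l ^ 2 * x) (l ^ 3 * y) h :
      Pt (l ^ 2 * a) (l ^ 4 * b) (l ^ 6 * c)) ≠ 0 := by
  intro h n hn h1
  have h2 : sc hl (n • (.some x y h0 : Pt a b c)) = 0 := by
    rw [sc_nsmul, sc_some]
    exact h1
  have h3 := H h0 n hn
  rcases hP : n • (.some x y h0 : Pt a b c) with _ | ⟨x', y', h'⟩
  · exact h3 hP
  · rw [hP, sc_some] at h2
    exact Affine.Point.some_ne_zero _ h2

end pts

section iot

variable {F : Type} [Field F] [CharZero F]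

/-- the change of scale -/
theorem iot_scale {w l : F} {q : Fin 4 → F} (hl : l ≠ 0) (hw : w ≠ 0) (h : IOt (w, q)) :
    IOt (l * w, fun j => l ^ 2 * q j) := by
  have e1 : tA (l * w, fun j => l ^ 2 * q j) = l ^ 2 * tA (w, q) := rfl
  have e2 : tB (l * w, fun j => l ^ 2 * q j) = l ^ 4 * tB (w, q) := by
    simp only [tB, rb]; ring
  have e3 : tC (l * w, fun j => l ^ 2 * q j) = l ^ 6 * tC (w, q) := by
    simp only [tC, rc]; ring
  have e4 : tX (l * w, fun j => l ^ 2 * q j) = l ^ 2 * tX (w, q) := by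
    simp only [tX, xs]
    field_simp
  have e5 : tY (l * w, fun j => l ^ 2 * q j) = l ^ 3 * tY (w, q) := by
    simp only [tY, ys, xs]
    field_simp
  obtain ⟨h1, h2⟩ := h
  refine ⟨?_, ?_⟩
  · rw [e1, e2, e3]
    have e : dsc (l ^ 2 * tA (w, q)) (l ^ 4 * tB (w, q)) (l ^ 6 * tC (w, q)) =
        l ^ 12 * dsc (tA (w, q)) (tB (w, q)) (tC (w, q)) := by
      simp only [dsc]; ring
    rw [e]
    exact mul_ne_zero (pow_ne_zero 12 hl) h1
  · letI : DecidableEq F := Classical.decEq F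
    exact Pool.Agent.X292.CY.io_transport e1.symm e2.symm e3.symm e4.symm e5.symm
      (io_scale hl (tns hw h1) h2)

end iot

section desc

variable {K : Type} [Field K] [CharZero K] {L : Type} [Field L] [CharZero L]

/-- torsion of a point gives torsion of its image -/
lemma pt_down0 [DecidableEq K] [DecidableEq L] [Algebra K L] {W' : WeierstrassCurve K} {x y : K}
    {W₁ : WeierstrassCurve K} (hW₁ : W₁ = W'.baseChange K) (h : W₁.toAffine.Nonsingular x y)
    {W₂ : WeierstrassCurve L} (hW₂ : W₂ = W'.baseChange L)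
    (h₂ : W₂.toAffine.Nonsingular (algebraMap K L x) (algebraMap K L y)) (n : ℕ)
    (h0 : n • (.some _ _ h : W₁.toAffine.Point) = 0) :
    n • (.some _ _ h₂ : W₂.toAffine.Point) = 0 := by
  subst hW₁ hW₂
  have h1 := congrArg (Affine.Point.map (W' := W') (F := K) (K := L) (Algebra.ofId K L)) h0
  rw [map_nsmul, _root_.map_zero] at h1
  exact h1

lemma pt_down [DecidableEq K] [DecidableEq L] (φ : K →+* L) {a b c x y : K}
    (h : (cv a b c).toAffine.Nonsingular x y) (W : WeierstrassCurve L)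
    (hW : W = (cv a b c).map φ) (h₂ : W.toAffine.Nonsingular (φ x) (φ y)) (n : ℕ)
    (h0 : n • (.some _ _ h : Pt a b c) = 0) : n • (.some _ _ h₂ : W.toAffine.Point) = 0 := by
  letI := φ.toAlgebra
  refine pt_down0 (L := L) (W' := cv a b c) (W₁ := cv a b c) ?_ h (W₂ := W) ?_ h₂ n h0
  · exact (WeierstrassCurve.map_id _).symm
  · exact hW

/-- infinite order descends -/
theorem io_down (φ : K →+* L) {θ : K × (Fin 4 → K)} (hw : θ.1 ≠ 0)
    (h : IOt (φ θ.1, fun j => φ (θ.2 j))) : IOt θ := by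
  classical
  have eA : tA (φ θ.1, fun j => φ (θ.2 j)) = φ (tA θ) := rfl
  have eB : tB (φ θ.1, fun j => φ (θ.2 j)) = φ (tB θ) := by
    simp only [tB, rb, map_sub, map_mul, map_pow, map_ofNat]
  have eC : tC (φ θ.1, fun j => φ (θ.2 j)) = φ (tC θ) := by
    simp only [tC, rc, map_sub, map_add, map_mul, map_pow, map_ofNat]
  have eX : tX (φ θ.1, fun j => φ (θ.2 j)) = φ (tX θ) := by
    simp only [tX, xs, map_sub, map_div₀, map_mul, map_pow, map_ofNat]
  have eY : tY (φ θ.1, fun j => φ (θ.2 j)) = φ (tY θ) := by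
    simp only [tY, ys, xs, map_sub, map_add, map_div₀, map_mul, map_pow, map_ofNat]
  obtain ⟨h1, h2⟩ := h
  rw [eA, eB, eC] at h1
  have hD : dsc (tA θ) (tB θ) (tC θ) ≠ 0 := by
    intro h0
    apply h1
    have e : dsc (φ (tA θ)) (φ (tB θ)) (φ (tC θ)) = φ (dsc (tA θ) (tB θ) (tC θ)) := by
      simp only [dsc, map_sub, map_add, map_mul, map_pow, map_ofNat]
    rw [e, h0, map_zero]
  refine ⟨hD, ?_⟩
  intro h n hn h0
  have hw' : (φ θ.1, fun j => φ (θ.2 j)).1 ≠ 0 := (map_ne_zero φ).2 hw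
  have h3 := tns (θ := (φ θ.1, fun j => φ (θ.2 j))) hw' (by rw [eA, eB, eC]; exact h1)
  rw [eA, eB, eC, eX, eY] at h3
  rw [eA, eB, eC, eX, eY] at h2
  apply h2 h3 n hn
  refine @pt_down K _ _ L _ _ (Classical.decEq K) (Classical.decEq L) φ _ _ _ _ _ h
    (cv (φ (tA θ)) (φ (tB θ)) (φ (tC θ))) ?_ h3 n h0
  simp [cv, WeierstrassCurve.map]

end desc

end Pool.Agent.X296.Koc
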